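import Pool.Agent.C2.Graph

/-!
# The c_2-invariant of 4-regular graphs: auxiliary definitions
-/

namespace Pool.Agent.C2

open Finset

section Graph

variable {V E : Type}

/-- the number of maps Y from the vertices to the null vectors of the split quadratic form
x_1 y_1 + x_2 y_2 + x_3 y_3 on F^6, such that the two ends of an edge are never orthogonal -/
noncomputable def skew (F : Type) [Field F] (s t : E → V) : ℕ :=
  Nat.card {Y : V → (Fin 3 → F) × (Fin 3 → F) //
    (∀ v, ∑ i, (Y v).1 i * (Y v).2 i = 0) ∧
    ∀ e, ∑ i, ((Y (s e)).1 i * (Y (t e)).2 i + (Y (t e)).1 i * (Y (s e)).2 i) ≠ 0}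

/-- the space of cuts (coboundaries) -/
def cut (F : Type) [Field F] (s t : E → V) : Submodule F (E → F) :=
  LinearMap.range
    (LinearMap.pi (fun e => (LinearMap.proj (t e) : (V → F) →ₗ[F] F) - LinearMap.proj (s e)))

end Graph

section Lin

variable {E : Type} [Fintype E] {F : Type} [Field F]

/-- the orthogonal complement with respect to the standard form -/
def perp (U : Submodule F (E → F)) : Submodule F (E → F) where
  carrier := {p | ∀ y ∈ U, ∑ e, p e * y e = 0}
  zero_mem' := by intro y _; simp
  add_mem' := by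
    intro a b ha hb y hy
    have h1 := ha y hy
    have h2 := hb y hy
    simp only [Pi.add_apply, add_mul, Finset.sum_add_distrib]
    rw [h1, h2, add_zero]
  smul_mem' := by
    intro c a ha y hy
    have h1 := ha y hy
    simp only [Pi.smul_apply, smul_eq_mul, mul_assoc]
    rw [← Finset.mul_sum, h1, mul_zero]

/-- the number of x in U tensor M_2 with det x_e = 0 for all e in S -/
noncomputable def nn (U : Submodule F (E → F)) (S : Finset E) : ℕ :=
  Nat.card {x : Fin 4 → E → F // (∀ i, x i ∈ U) ∧ ∀ e ∈ S, x 0 e * x 3 e = x 1 e * x 2 e}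

/-- the number of x in U tensor M_2 with det x_e ≠ 0 for all e -/
noncomputable def np (U : Submodule F (E → F)) : ℕ :=
  Nat.card {x : Fin 4 → E → F // (∀ i, x i ∈ U) ∧ ∀ e, x 0 e * x 3 e ≠ x 1 e * x 2 e}

/-- the number of b such that b p is in U-perp for some nonzero p in U -/
noncomputable def nz (U : Submodule F (E → F)) : ℕ :=
  Nat.card {b : E → F // ∃ p ∈ U, p ≠ 0 ∧ (fun e => b e * p e) ∈ perp U}

end Lin

section Elim

variable {V E : Type} {F : Type} [Field F]

/-- the symmetric matrix with diagonal d and off-diagonal entries b, applied to u, at x -/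
def Lap [Fintype E] [DecidableEq V] (s t : E → V) (b : E → F) (d : V → F) (u : V → F) (x : V) : F :=
  d x * u x + ∑ e, b e * ((if s e = x then u (t e) else 0) + (if t e = x then u (s e) else 0))

/-- the size of the kernel of this matrix -/
noncomputable def kerL [Fintype E] [DecidableEq V] (s t : E → V) (b : E → F) (d : V → F) : ℕ :=
  Nat.card {u : V → F // ∀ x, Lap s t b d u x = 0}

/-- the weight prod_e (q [b_e = 0] - 1) -/
noncomputable def wt [Fintype E] [DecidableEq F] [Fintype F] (b : E → F) : ℤ :=
  ∏ e, ((if b e = 0 then (Fintype.card F : ℤ) else 0) - 1)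

/-- S_3 = the weighted sum of the third powers of the kernel sizes -/
noncomputable def S3 (F : Type) [Field F] [Fintype F] [DecidableEq F] [Fintype V] [DecidableEq V]
    [Fintype E] [DecidableEq E] (s t : E → V) : ℤ :=
  ∑ b : E → F, ∑ d : V → F, wt b * (kerL s t b d : ℤ) ^ 3

/-- S_I -/
noncomputable def SI (F : Type) [Field F] [Fintype F] [DecidableEq F] [Fintype V] [DecidableEq V]
    [Fintype E] [DecidableEq E] (s t : E → V) {J : Type} (o : J → V) (I : Finset V) : ℤ :=
  ∑ b : E → F, ∑ d : V → F, wt b * (kerL s t b d : ℤ) ^ 2 *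
    (Nat.card {k : V → F // (∀ x, Lap s t b d k x = 0) ∧ (∀ j, k (o j) ≠ 0) ∧
      ∀ x ∈ I, k x = 0} : ℤ)

/-- S_all -/
noncomputable def SA (F : Type) [Field F] [Fintype F] [DecidableEq F] [Fintype V] [DecidableEq V]
    [Fintype E] [DecidableEq E] (s t : E → V) : ℤ :=
  ∑ b : E → F, ∑ d : V → F, wt b * (kerL s t b d : ℤ) ^ 2 *
    (Nat.card {k : V → F // (∀ x, Lap s t b d k x = 0) ∧ (∀ x, k x ≠ 0)} : ℤ)

/-- the size of the kernel of the Laplacian -/
noncomputable def kerG [Fintype E] [DecidableEq V] (s t : E → V) (b : E → F) : ℕ :=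
  Nat.card {u : V → F // ∀ x, ∑ e, b e * ((if s e = x then u (t e) - u (s e) else 0) +
    (if t e = x then u (s e) - u (t e) else 0)) = 0}

/-- the number of maps from the vertices to 2 x 2 matrices with invertible differences along
the edges -/
noncomputable def ZP (F : Type) [Field F] (s t : E → V) : ℕ :=
  Nat.card {x : Fin 4 → V → F // ∀ e, (x 0 (t e) - x 0 (s e)) * (x 3 (t e) - x 3 (s e)) ≠
    (x 1 (t e) - x 1 (s e)) * (x 2 (t e) - x 2 (s e))}

/-- the size of the kernel of the bordered matrix with corner a, border b and block B -/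
noncomputable def cE {X : Type} [Fintype X] (a : F) (b : X → F) (B : Matrix X X F) : ℕ :=
  Nat.card {p : F × (X → F) // a * p.1 + ∑ x, b x * p.2 x = 0 ∧
    ∀ x, ∑ y, B x y * p.2 y + b x * p.1 = 0}

/-- the size of the kernel of B -/
noncomputable def kB {X : Type} [Fintype X] (B : Matrix X X F) : ℕ :=
  Nat.card {u : X → F // ∀ x, ∑ y, B x y * u y = 0}

/-- the number of kernel vectors without zeros at the vertices o j -/
noncomputable def kO {X J : Type} [Fintype X] (B : Matrix X X F) (o : J → X) : ℕ :=
  Nat.card {u : X → F // (∀ x, ∑ y, B x y * u y = 0) ∧ ∀ j, u (o j) ≠ 0}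

/-- the border given by edges: the sum of the b_j with o j = x -/
def bd {X J : Type} [Fintype J] [DecidableEq X] (o : J → X) (b : J → F) (x : X) : F :=
  ∑ j, if o j = x then b j else 0

end Elim

end Pool.Agent.C2
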