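import Mathlib

/-!
# The c_2-invariant of a graph: definitions used in the statements

MP_503f8d_mp.  Multigraphs are given by finite types V of vertices and E of edges and two maps
s, t : E → V (the two ends of an edge, in an arbitrary order).
-/

namespace Pool.Agent.C2

open Finset

section Graph

variable {V E : Type}

/-- x and y are the two ends of an edge in T -/
def Step (s t : E → V) (T : Finset E) (x y : V) : Prop :=
  ∃ e ∈ T, (s e = x ∧ t e = y) ∨ (s e = y ∧ t e = x)

/-- the graph with all vertices and the edges in T is connected -/
def Conn (s t : E → V) (T : Finset E) : Prop :=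
  ∀ x y : V, Relation.ReflTransGen (Step s t T) x y

/-- T is the edge set of a spanning tree: connected with card V - 1 edges -/
def IsSpTree [Fintype V] (s t : E → V) (T : Finset E) : Prop :=
  T.card + 1 = Fintype.card V ∧ Conn s t T

open Classical in
/-- the Kirchhoff polynomial Psi_G : the sum over the spanning trees T of the products of
the variables of the edges outside T -/
noncomputable def Psi {F : Type} [Field F] [Fintype V] [Fintype E] (s t : E → V)
    (b : E → F) : F :=
  ∑ T ∈ (univ : Finset (Finset E)).filter (fun T => IsSpTree s t T), ∏ e ∈ univ \ T, b e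

open Classical in
/-- the dual Kirchhoff polynomial Phi_G : the sum over the spanning trees T of the products of
the variables of the edges of T -/
noncomputable def Phi {F : Type} [Field F] [Fintype V] [Fintype E] (s t : E → V)
    (b : E → F) : F :=
  ∑ T ∈ (univ : Finset (Finset E)).filter (fun T => IsSpTree s t T), ∏ e ∈ T, b e

/-- the number of zeros of Psi_G over F -/
noncomputable def zeros (F : Type) [Field F] [Fintype V] [Fintype E] (s t : E → V) : ℕ :=
  Nat.card {b : E → F // Psi s t b = 0}

/-- the number of zeros of Phi_G over F -/
noncomputable def zerosD (F : Type) [Field F] [Fintype V] [Fintype E] (s t : E → V) : ℕ :=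
  Nat.card {b : E → F // Phi s t b = 0}

/-- first ends of the edges of G - v -/
def delS (s t : E → V) (v : V) (e : {e : E // s e ≠ v ∧ t e ≠ v}) : {w : V // w ≠ v} :=
  ⟨s e.1, e.2.1⟩

/-- second ends of the edges of G - v -/
def delT (s t : E → V) (v : V) (e : {e : E // s e ≠ v ∧ t e ≠ v}) : {w : V // w ≠ v} :=
  ⟨t e.1, e.2.2⟩

/-- the degree of a vertex -/
noncomputable def deg (s t : E → V) (v : V) : ℕ := Nat.card {e // s e = v} + Nat.card {e // t e = v}

/-- a line of the projective space P^3 over F: a two-dimensional subspace of F^4 -/
def Line (F : Type) [Field F] : Type :=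
  {W : Submodule F (Fin 4 → F) // Module.finrank F W = 2}

/-- the number of maps from the vertices to the lines of P^3 over F such that the two ends of
every edge go to skew (disjoint) lines -/
noncomputable def homSkew (F : Type) [Field F] (s t : E → V) : ℕ :=
  Nat.card {L : V → Line F // ∀ e, Disjoint (L (s e)).1 (L (t e)).1}

/-- the c_2-invariant: the number of zeros of Psi divided by q^2, modulo q -/
noncomputable def c2 (F : Type) [Field F] [Fintype F] [Fintype V] [Fintype E] (s t : E → V) :
    ZMod (Fintype.card F) :=
  ((zeros F s t / Fintype.card F ^ 2 : ℕ) : ZMod (Fintype.card F))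

/-- momentum space: the number of assignments of vectors p_e in F^4 to the edges which satisfy
Kirchhoff's law at every vertex and have Q(p_e) = 0 for at least one edge, Q the split form
x_0 x_3 - x_1 x_2 -/
noncomputable def mom (F : Type) [Field F] [Fintype E] [DecidableEq V] (s t : E → V) : ℕ :=
  Nat.card {p : Fin 4 → E → F //
    (∀ i v, ∑ e, (if t e = v then p i e else 0) = ∑ e, (if s e = v then p i e else 0)) ∧
    ∃ e, p 0 e * p 3 e = p 1 e * p 2 e}

/-- position space: the number of maps x from the vertices to F^4 with x = 0 at the vertex r and
Q(x_(t e) - x_(s e)) = 0 for at least one edge e -/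
noncomputable def pos (F : Type) [Field F] (s t : E → V) (r : V) : ℕ :=
  Nat.card {x : Fin 4 → V → F // (∀ i, x i r = 0) ∧
    ∃ e, (x 0 (t e) - x 0 (s e)) * (x 3 (t e) - x 3 (s e)) =
      (x 1 (t e) - x 1 (s e)) * (x 2 (t e) - x 2 (s e))}

end Graph

end Pool.Agent.C2
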