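import Pool.Agent.C2.Defs

/-!
# The c_2-invariant of 4-regular graphs: statements of the rows

MP_503f8d_mp.  q = Fintype.card F everywhere.
-/

namespace Pool.Agent.C2

open Finset

/-! ## Part L: linear algebra -/

/-- KD0. Kernel duality. Proof: rank M = rank M^T; the left kernel has q^(card R - rank), the right
kernel q^(card Y - rank) elements. -/
def Kd0Stmt : Prop := ∀ (F : Type) [Field F] [Fintype F] (R Y : Type) [Fintype R] [Fintype Y]
  (M : R → Y → F),
  Fintype.card F ^ Fintype.card Y * Nat.card {x : R → F // ∀ y, ∑ r, x r * M r y = 0} =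
  Fintype.card F ^ Fintype.card R * Nat.card {z : Y → F // ∀ r, ∑ y, M r y * z y = 0}

/-- KDW (uses KD0). Weighted kernel duality. Proof: expand wt b = prod_n (q [b_n = 0] - 1) as a sum
over the subsets J of N (q for n in J, with b_n = 0 there, and -1 outside), apply KD0 to the matrix
with rows (N minus J) + X, and recollect: the sum over J of (-1)^(N minus J) times the number of z
with C z = 0 and (M z)_n = 0 outside J is the number of z with C z = 0 and all (M z)_n ≠ 0. -/
def KdwStmt : Prop := ∀ (F : Type) [Field F] [Fintype F] [DecidableEq F] (N X Y : Type)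
  [Fintype N] [DecidableEq N] [Fintype X] [Fintype Y] (M : N → Y → F) (C : X → Y → F),
  (Fintype.card F : ℤ) ^ Fintype.card Y *
    ∑ b : N → F, wt b *
      (Nat.card {x : X → F // ∀ y, ∑ n, b n * M n y + ∑ i, x i * C i y = 0} : ℤ) =
  (Fintype.card F : ℤ) ^ (Fintype.card N + Fintype.card X) *
    (Nat.card {z : Y → F // (∀ i, ∑ y, C i y * z y = 0) ∧ ∀ n, ∑ y, M n y * z y ≠ 0} : ℤ)

/-- the number of solutions of B x = - b -/
noncomputable def rB {F : Type} [Field F] {X : Type} [Fintype X] (b : X → F) (B : Matrix X X F) :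
    ℕ := Nat.card {u : X → F // ∀ x, ∑ y, B x y * u y + b x = 0}

/-- AK3. Sum over the corner a of the third powers of the sizes of the kernels of the bordered
matrix. Proof: B symmetric, K = ker B. If b is not in the image of B = K-perp then rB = 0 and the
kernel of the bordered matrix is {(0,u) : u in K, b.u = 0} with kB / q elements for every a. If
- b = B x0 then rB = kB, b.u = 0 on K, and the kernel is {(c, c x0 + u) : c (a + b.x0) = 0}: kB
elements for a ≠ - b.x0 and q kB elements for a = - b.x0. -/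
def Ak3Stmt : Prop := ∀ (F : Type) [Field F] [Fintype F] (X : Type) [Fintype X]
  (b : X → F) (B : Matrix X X F), (∀ x y, B x y = B y x) →
  (Fintype.card F : ℤ) ^ 2 * ∑ a : F, (cE a b B : ℤ) ^ 3 =
    (kB B : ℤ) ^ 3 + ((Fintype.card F : ℤ) ^ 5 + (Fintype.card F : ℤ) ^ 3 -
      (Fintype.card F : ℤ) ^ 2 - 1) * (kB B : ℤ) ^ 2 * (rB b B : ℤ)

/-- AK2. The same for squares. -/
def Ak2Stmt : Prop := ∀ (F : Type) [Field F] [Fintype F] (X : Type) [Fintype X]
  (b : X → F) (B : Matrix X X F), (∀ x y, B x y = B y x) →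
  (Fintype.card F : ℤ) * ∑ a : F, (cE a b B : ℤ) ^ 2 =
    (kB B : ℤ) ^ 2 + ((Fintype.card F : ℤ) ^ 3 + (Fintype.card F : ℤ) ^ 2 -
      (Fintype.card F : ℤ) - 1) * (kB B : ℤ) * (rB b B : ℤ)

/-- ABS (uses KDW, AK3). Sum over the border. Proof: sum_b wt b = 0 (J is not empty), and KDW with
N = J, X = Y = X, M j x = [o j = x], C = B gives sum_b wt b rB (bd o b) B = q^4 kO B o. -/
def AbsStmt : Prop := ∀ (F : Type) [Field F] [Fintype F] [DecidableEq F] (X J : Type) [Fintype X]
  [DecidableEq X] [Fintype J] [DecidableEq J] (o : J → X) (B : Matrix X X F),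
  (∀ x y, B x y = B y x) → Fintype.card J = 4 →
  ∑ b : J → F, ∑ a : F, wt b * (cE a (bd o b) B : ℤ) ^ 3 =
    ((Fintype.card F : ℤ) ^ 3 - 1) * ((Fintype.card F : ℤ) ^ 2 + 1) * (Fintype.card F : ℤ) ^ 2 *
      (kB B : ℤ) ^ 2 * (kO B o : ℤ)

open Classical in
/-- ABT (uses KDW, AK2). Sum over the borders orthogonal to a kernel vector k. Proof: if
rB (bd o b) B ≠ 0 then bd o b = - B x, so it is orthogonal to k; hence
q LHS = kB^2 sum_(b.k = 0) wt b + (q^3+q^2-q-1) kB q^4 kO; the first sum is q^3 (q-1) [k_(o j) ≠ 0]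
by KDW with N = J, X = Empty, Y = Unit, M j () = k (o j). -/
def AbtStmt : Prop := ∀ (F : Type) [Field F] [Fintype F] [DecidableEq F] (X J : Type) [Fintype X]
  [DecidableEq X] [Fintype J] [DecidableEq J] (o : J → X) (B : Matrix X X F) (k : X → F),
  (∀ x y, B x y = B y x) → Fintype.card J = 4 → (∀ x, ∑ y, B x y * k y = 0) →
  ∑ b : J → F, ∑ a : F, (if ∑ x, bd o b x * k x = 0 then wt b * (cE a (bd o b) B : ℤ) ^ 2 else 0) =
    (Fintype.card F : ℤ) ^ 2 * ((Fintype.card F : ℤ) - 1) * (kB B : ℤ) ^ 2 *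
      (if ∀ j, k (o j) ≠ 0 then 1 else 0) +
    ((Fintype.card F : ℤ) ^ 2 - 1) * ((Fintype.card F : ℤ) + 1) * (Fintype.card F : ℤ) ^ 3 *
      (kB B : ℤ) * (kO B o : ℤ)

open Classical in
/-- DIV (uses ABT). Divisibility by q^5. Proof: kB = q^c with c ≥ 1. c ≥ 2: clear. c = 1: the
kernel is spanned by k, kO = (q-1) [k_(o j) ≠ 0], and the sum is
[..] (q-1) q^4 (1 + (q^2-1)(q+1)) = [..] (q-1) q^5 (q^2+q-1). -/
def DivStmt : Prop := ∀ (F : Type) [Field F] [Fintype F] [DecidableEq F] (X J : Type) [Fintype X]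
  [DecidableEq X] [Fintype J] [DecidableEq J] (o : J → X) (B : Matrix X X F) (k : X → F),
  (∀ x y, B x y = B y x) → Fintype.card J = 4 → (∀ x, ∑ y, B x y * k y = 0) → k ≠ 0 →
  (Fintype.card F : ℤ) ^ 5 ∣
  ∑ b : J → F, ∑ a : F, (if ∑ x, bd o b x * k x = 0 then wt b * (cE a (bd o b) B : ℤ) ^ 2 else 0)

/-! ## Part G: graphs -/

/-- the symmetric matrix of Lap -/
def LapM {V E : Type} {F : Type} [Field F] [Fintype E] [DecidableEq V] (s t : E → V) (b : E → F)
    (d : V → F) : Matrix V V F := fun x y =>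
  (if x = y then d x else 0) +
    ∑ e, b e * ((if s e = x ∧ t e = y then 1 else 0) + (if t e = x ∧ s e = y then 1 else 0))

/-- the other end of an edge at v -/
def oth {V E : Type} [DecidableEq V] (s t : E → V) (hl : ∀ e, s e ≠ t e) (v : V)
    (e : {e : E // ¬ (s e ≠ v ∧ t e ≠ v)}) : {w : V // w ≠ v} :=
  if h : s e.1 = v then ⟨t e.1, fun h2 => hl e.1 (h.trans h2.symm)⟩ else ⟨s e.1, h⟩

/-- SPL. Lap at a vertex v: bordered matrix. -/
def SplStmt : Prop := ∀ (F : Type) [Field F] [Fintype F] (V E : Type) [Fintype V]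
  [DecidableEq V] [Fintype E] [DecidableEq E] (s t : E → V) (hl : ∀ e, s e ≠ t e) (v : V)
  (b : E → F) (d : V → F),
  kerL s t b d = cE (d v) (bd (oth s t hl v) (fun e => b e.1))
    (LapM (delS s t v) (delT s t v) (fun e => b e.1) (fun w => d w.1)) ∧
  (∀ u : V → F, (∀ x, Lap s t b d u x = 0) ↔
    (d v * u v + ∑ x, bd (oth s t hl v) (fun e => b e.1) x * u x.1 = 0 ∧
      ∀ x, Lap (delS s t v) (delT s t v) (fun e => b e.1) (fun w => d w.1) (fun w => u w.1) x +
        bd (oth s t hl v) (fun e => b e.1) x * u v = 0)) ∧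
  (∀ (u : V → F) (x : V), Lap s t b d u x = ∑ y, LapM s t b d x y * u y) ∧
  (∀ x y, LapM s t b d x y = LapM s t b d y x)

/-- SUM. Splitting sums over b : E → F and d : V → F at v. -/
def SumStmt : Prop := ∀ (F : Type) [Field F] [Fintype F] [DecidableEq F] (V E : Type) [Fintype V]
  [DecidableEq V] [Fintype E] [DecidableEq E] (s t : E → V) (v : V)
  (f : ({e : E // s e ≠ v ∧ t e ≠ v} → F) → ({e : E // ¬ (s e ≠ v ∧ t e ≠ v)} → F) →
    ({w : V // w ≠ v} → F) → F → ℤ),
  ∑ b : E → F, ∑ d : V → F, wt b * f (fun e => b e.1) (fun e => b e.1) (fun w => d w.1) (d v) =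
  ∑ b1 : {e : E // s e ≠ v ∧ t e ≠ v} → F, ∑ d1 : {w : V // w ≠ v} → F,
    wt b1 * ∑ b2 : {e : E // ¬ (s e ≠ v ∧ t e ≠ v)} → F, ∑ a : F, wt b2 * f b1 b2 d1 a

/-- ELI (uses ABS, SPL, SUM). Elimination of a vertex of degree 4. -/
def EliStmt : Prop := ∀ (F : Type) [Field F] [Fintype F] [DecidableEq F] (V E : Type) [Fintype V]
  [DecidableEq V] [Fintype E] [DecidableEq E] (s t : E → V) (hl : ∀ e, s e ≠ t e) (v : V),
  Fintype.card {e : E // ¬ (s e ≠ v ∧ t e ≠ v)} = 4 →
  S3 F s t = ((Fintype.card F : ℤ) ^ 3 - 1) * ((Fintype.card F : ℤ) ^ 2 + 1) *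
    (Fintype.card F : ℤ) ^ 2 * SI F (delS s t v) (delT s t v) (oth s t hl v) ∅

/-- SIZ (uses DIV, SPL, SUM). q^5 divides S_I if I contains a vertex i of degree 4. Proof: if
i = o j then S_I = 0. Otherwise eliminate i: k_i = 0, so k = (0, k1) with B k1 = 0, b.k1 = 0, and
k1 ≠ 0 because J is not empty. -/
def SizStmt : Prop := ∀ (F : Type) [Field F] [Fintype F] [DecidableEq F] (V E : Type) [Fintype V]
  [DecidableEq V] [Fintype E] [DecidableEq E] (s t : E → V), (∀ e, s e ≠ t e) →
  ∀ (J : Type) [Nonempty J] (o : J → V) (I : Finset V) (i : V), i ∈ I →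
  ((∃ j, o j = i) ∨ Fintype.card {e : E // ¬ (s e ≠ i ∧ t e ≠ i)} = 4) →
  (Fintype.card F : ℤ) ^ 5 ∣ SI F s t o I

/-- INC. Inclusion and exclusion over the zero set. -/
def IncStmt : Prop := ∀ (F : Type) [Field F] [Fintype F] [DecidableEq F] (V E : Type) [Fintype V]
  [DecidableEq V] [Fintype E] [DecidableEq E] (s t : E → V) (J : Type) (o : J → V),
  SA F s t = ∑ I : Finset V, (-1 : ℤ) ^ I.card * SI F s t o I

/-- NQS (uses KDW). The number of skew configurations is S_3. Proof: fix the first components u of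
Y; KDW with N = E, X = V, Y = V x Fin 3, M e (w,i) = [t e = w] u_(s e) i + [s e = w] u_(t e) i,
C v (w,i) = [v = w] u_v i; then sum over u: the number of triples u_1, u_2, u_3 in the kernel of
Lap b d is kerL^3. -/
def NqsStmt : Prop := ∀ (F : Type) [Field F] [Fintype F] [DecidableEq F] (V E : Type) [Fintype V]
  [DecidableEq V] [Fintype E] [DecidableEq E] (s t : E → V),
  Fintype.card E = 2 * Fintype.card V → S3 F s t = (skew F s t : ℤ)

/-- ZPL (uses KDW). Proof: fix x 0, x 1; KDW with N = E, X = Empty, Y = V x Fin 2 (or V + V),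
M e (w,0) = (x 0 (t e) - x 0 (s e)) ([t e = w] - [s e = w]) (variable x 3) and
M e (w,1) = - (x 1 (t e) - x 1 (s e)) ([t e = w] - [s e = w]) (variable x 2). -/
def ZplStmt : Prop := ∀ (F : Type) [Field F] [Fintype F] [DecidableEq F] (V E : Type) [Fintype V]
  [DecidableEq V] [Fintype E] [DecidableEq E] (s t : E → V),
  (Fintype.card F : ℤ) ^ (2 * Fintype.card V) * ∑ b : E → F, wt b * (kerG s t b : ℤ) ^ 2 =
  (Fintype.card F : ℤ) ^ (Fintype.card E) * (ZP F s t : ℤ)

/-- SAL. Torus normalisation: for k without zeros substitute b_e → b_e k_(s e) k_(t e),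
d_x → d_x k_x^2; the kernel is divided by k, k becomes 1, and Lap b d 1 = 0 determines d, with
Lap b d = the Laplacian of b. -/
def SalStmt : Prop := ∀ (F : Type) [Field F] [Fintype F] [DecidableEq F] (V E : Type) [Fintype V]
  [DecidableEq V] [Fintype E] [DecidableEq E] (s t : E → V), (∀ e, s e ≠ t e) →
  SA F s t = ((Fintype.card F : ℤ) - 1) ^ (Fintype.card V) *
    ∑ b : E → F, wt b * (kerG s t b : ℤ) ^ 2

/-- ZCU. For a connected graph the potentials modulo constants are the cuts. -/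
def ZcuStmt : Prop := ∀ (F : Type) [Field F] [Fintype F] (V E : Type) [Fintype V] [Nonempty V]
  [DecidableEq V] [Fintype E] [DecidableEq E] (s t : E → V), Conn s t univ →
  ZP F s t = Fintype.card F ^ 4 * np (cut F s t)

/-- CUD. The dimension of the cut space, and of its complement. -/
def CudStmt : Prop := ∀ (F : Type) [Field F] [Fintype F] (V E : Type) [Fintype V] [Nonempty V]
  [DecidableEq V] [Fintype E] [DecidableEq E] (s t : E → V), Conn s t univ →
  Module.finrank F (cut F s t) + 1 = Fintype.card V ∧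
  Module.finrank F (perp (cut F s t)) + Fintype.card V = Fintype.card E + 1 ∧
  perp (perp (cut F s t)) = cut F s t

/-- MTT. Matrix tree theorem for Psi and Phi (over any field). -/
def MttStmt : Prop := ∀ (F : Type) [Field F] (V E : Type) [Fintype V] [Nonempty V]
  [Fintype E] (s t : E → V) (b : E → F), Conn s t univ →
  (Psi s t b = 0 ↔ ∃ p ∈ perp (cut F s t), p ≠ 0 ∧ (fun e => b e * p e) ∈ cut F s t) ∧
  (Phi s t b = 0 ↔ ∃ p ∈ cut F s t, p ≠ 0 ∧ (fun e => b e * p e) ∈ perp (cut F s t))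

/-! ## Part U: the spaces U in F^E -/

/-- NQ2. q^2 divides the number of x in U tensor M_2 with det x_e = 0 for e in S. -/
def Nq2Stmt : Prop := ∀ (F : Type) [Field F] [Fintype F] (E : Type) [Fintype E] [DecidableEq E]
  (U : Submodule F (E → F)) (S : Finset E), 2 ≤ Module.finrank F U →
  Fintype.card F ^ 2 ∣ nn U S

/-- DUA. Duality. -/
def DuaStmt : Prop := ∀ (F : Type) [Field F] [Fintype F] (E : Type) [Fintype E] [DecidableEq E]
  (U : Submodule F (E → F)), 3 ≤ Module.finrank F U →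
  Fintype.card E = 2 * Module.finrank F U →
  ((Fintype.card F : ℤ) ^ 3 ∣ (nn U univ : ℤ) - (nn (perp U) univ : ℤ))

/-- POS. Null edges and invertible edges. -/
def PosStmt : Prop := ∀ (F : Type) [Field F] [Fintype F] (E : Type) [Fintype E] [DecidableEq E]
  (U : Submodule F (E → F)), 3 ≤ Module.finrank F U →
  Fintype.card E = 2 * Module.finrank F U →
  ((Fintype.card F : ℤ) ^ 3 ∣ (nn U univ : ℤ) - (np U : ℤ))

/-- ZER. The zeros. -/
def ZerStmt : Prop := ∀ (F : Type) [Field F] [Fintype F] (E : Type) [Fintype E] [DecidableEq E]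
  (U : Submodule F (E → F)), 3 ≤ Module.finrank F U →
  Fintype.card E = 2 * Module.finrank F U →
  ((Fintype.card F : ℤ) ^ 3 ∣ (nn U univ : ℤ) + (nz U : ℤ)) ∧ ((Fintype.card F) ^ 2 ∣ nz U)

/-! ## The theorem -/

/-- FIN. (uses all) -/
def FinStmt : Prop := ∀ (F : Type) [Field F] [Fintype F] (V E : Type) [Fintype V]
  [DecidableEq V] [Fintype E] (s t : E → V), (∀ e, s e ≠ t e) → (∀ v, deg s t v = 4) → 5 ≤ Fintype.card V →
  ∀ v : V, Conn (delS s t v) (delT s t v) univ →
  Fintype.card F ^ 2 ∣ zeros F (delS s t v) (delT s t v) ∧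
  (Fintype.card F : ℤ) ^ 3 ∣ (zeros F (delS s t v) (delT s t v) : ℤ) -
    (zerosD F (delS s t v) (delT s t v) : ℤ) ∧
  (Fintype.card F : ℤ) ^ 7 ∣ (skew F s t : ℤ) - (-1) ^ (Fintype.card V - 1) *
    (Fintype.card F : ℤ) ^ 4 * (zeros F (delS s t v) (delT s t v) : ℤ)

end Pool.Agent.C2
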